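import Mathlib

/-!
General definitions and lemmas for MP_512408: interval doublings, congruence uniform lattices,
Hasse-regularity and order dimension, together with a concrete model of iterated doublings
as families of bit masks ordered by inclusion.
-/

namespace MP512408

/-! ### Definitions -/

/-- Day's doubling `L[I]` of the interval `I = [a,b]`: the elements outside `I` (as `(x,false)`)
together with two copies `(x,false)`, `(x,true)` of every `x ∈ I`. -/
def Doubling (L : Type) [PartialOrder L] (a b : L) : Type :=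
  {p : L × Bool // p.2 = true → a ≤ p.1 ∧ p.1 ≤ b}

/-- The order of `L[I]`: `(x,s) ≤ (y,t)` iff `x ≤ y` and, if both `x,y` are in `I`, `s ≤ t`. -/
instance (L : Type) [PartialOrder L] (a b : L) : PartialOrder (Doubling L a b) where
  le p q := p.1.1 ≤ q.1.1 ∧
    ((a ≤ p.1.1 ∧ p.1.1 ≤ b) → (a ≤ q.1.1 ∧ q.1.1 ≤ b) → p.1.2 = true → q.1.2 = true)
  le_refl p := ⟨le_rfl, fun _ _ h => h⟩
  le_trans p q s h1 h2 := ⟨h1.1.trans h2.1, fun hp hs hpt =>
    h2.2 ⟨hp.1.trans h1.1, h2.1.trans hs.2⟩ hs (h1.2 hp ⟨hp.1.trans h1.1, h2.1.trans hs.2⟩ hpt)⟩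
  le_antisymm p q h1 h2 := by
    obtain ⟨⟨x, s⟩, hp⟩ := p
    obtain ⟨⟨y, t⟩, hq⟩ := q
    have hxy : x = y := le_antisymm h1.1 h2.1
    subst hxy
    apply Subtype.ext
    apply Prod.ext
    · rfl
    · change s = t
      have h1' := h1.2
      have h2' := h2.2
      simp only at h1' h2' hp hq
      cases s <;> cases t
      · rfl
      · exact absurd (h2' (hq rfl) (hq rfl) rfl) (by simp)
      · exact absurd (h1' (hp rfl) (hp rfl) rfl) (by simp)
      · rfl

/-- `L` is congruence uniform: it is obtained (up to isomorphism) from the one-element lattice by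
a finite sequence of doublings of intervals `[a,b]`, `a ≤ b`. -/
inductive CongruenceUniform : PartOrd.{0} → Prop
  | point : CongruenceUniform (PartOrd.of Unit)
  | double (L : PartOrd.{0}) (a b : L) (hab : a ≤ b) :
      CongruenceUniform L → CongruenceUniform (PartOrd.of (Doubling L a b))
  | iso (L M : PartOrd.{0}) (e : L ≃o M) : CongruenceUniform L → CongruenceUniform M

/-- Semidistributivity of a lattice. -/
def Semidistributive (L : Type) [Lattice L] : Prop :=
  (∀ x y z : L, x ⊔ y = x ⊔ z → x ⊔ y = x ⊔ (y ⊓ z)) ∧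
  (∀ x y z : L, x ⊓ y = x ⊓ z → x ⊓ y = x ⊓ (y ⊔ z))

/-- `r`-Hasse-regular: every element has exactly `r` lower and upper covers in total. -/
def HasseRegular (r : ℕ) (L : Type) [PartialOrder L] : Prop :=
  ∀ x : L, {y : L | y ⋖ x}.ncard + {y : L | x ⋖ y}.ncard = r

/-- The order of `L` is the intersection of `k` linear orders on `L`. -/
def HasRealizer (L : Type) [PartialOrder L] (k : ℕ) : Prop :=
  ∃ R : Fin k → LinearOrder L, ∀ x y : L, x ≤ y ↔ ∀ i, (R i).le x y

/-- Dushnik–Miller order dimension. -/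
noncomputable def orderDim (L : Type) [PartialOrder L] : ℕ :=
  sInf {k : ℕ | HasRealizer L k}

/-! ### Lattice structure of doublings -/

/-- every two elements have a least upper bound and a greatest lower bound. -/
def HasBounds (L : Type) [PartialOrder L] : Prop :=
  ∀ x y : L, (∃ s, IsLUB {x, y} s) ∧ (∃ i, IsGLB {x, y} i)

theorem isLUB_pair_iff {L : Type} [PartialOrder L] {x y s : L} :
    IsLUB {x, y} s ↔ x ≤ s ∧ y ≤ s ∧ ∀ u, x ≤ u → y ≤ u → s ≤ u := by
  constructor
  · intro h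
    exact ⟨h.1 (by simp), h.1 (by simp), fun u hx hy => h.2 (by
      intro z hz
      rcases hz with rfl | hz
      · exact hx
      · rw [Set.mem_singleton_iff.1 hz]; exact hy)⟩
  · rintro ⟨h1, h2, h3⟩
    refine ⟨?_, ?_⟩
    · intro z hz
      rcases hz with rfl | hz
      · exact h1
      · rw [Set.mem_singleton_iff.1 hz]; exact h2
    · intro u hu
      exact h3 u (hu (by simp)) (hu (by simp))

theorem isGLB_pair_iff {L : Type} [PartialOrder L] {x y s : L} :
    IsGLB {x, y} s ↔ s ≤ x ∧ s ≤ y ∧ ∀ u, u ≤ x → u ≤ y → u ≤ s := by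
  constructor
  · intro h
    exact ⟨h.1 (by simp), h.1 (by simp), fun u hx hy => h.2 (by
      intro z hz
      rcases hz with rfl | hz
      · exact hx
      · rw [Set.mem_singleton_iff.1 hz]; exact hy)⟩
  · rintro ⟨h1, h2, h3⟩
    refine ⟨?_, ?_⟩
    · intro z hz
      rcases hz with rfl | hz
      · exact h1
      · rw [Set.mem_singleton_iff.1 hz]; exact h2
    · intro u hu
      exact h3 u (hu (by simp)) (hu (by simp))

theorem hasBounds_double {L : Type} [PartialOrder L] (a b : L) (h : HasBounds L) :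
    HasBounds (Doubling L a b) := by
  classical
  intro p q
  obtain ⟨⟨x, s⟩, hp⟩ := p
  obtain ⟨⟨y, t⟩, hq⟩ := q
  obtain ⟨⟨z, hz⟩, ⟨w, hw⟩⟩ := h x y
  rw [isLUB_pair_iff] at hz
  rw [isGLB_pair_iff] at hw
  simp only at hp hq
  constructor
  · refine ⟨⟨(z, (s || t) && decide (a ≤ z ∧ z ≤ b)), ?_⟩, ?_⟩
    · intro h1
      simp only [Bool.and_eq_true, decide_eq_true_eq] at h1
      exact h1.2
    · rw [isLUB_pair_iff]
      refine ⟨⟨hz.1, ?_⟩, ⟨hz.2.1, ?_⟩, ?_⟩
      · intro _ h2 h3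
        simp only at h2 h3 ⊢
        simp [h2, h3]
      · intro _ h2 h3
        simp only at h2 h3 ⊢
        simp [h2, h3]
      · rintro ⟨⟨u, r⟩, hu⟩ h1 h2
        refine ⟨hz.2.2 u h1.1 h2.1, ?_⟩
        intro h3 h4 h5
        simp only [Bool.and_eq_true, Bool.or_eq_true, decide_eq_true_eq] at h5 h3 h4 ⊢
        rcases h5.1 with h6 | h6
        · exact h1.2 (hp h6) h4 h6
        · exact h2.2 (hq h6) h4 h6
  · refine ⟨⟨(w, decide (a ≤ w ∧ w ≤ b) && ((!decide (a ≤ x ∧ x ≤ b) || s) &&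
      (!decide (a ≤ y ∧ y ≤ b) || t))), ?_⟩, ?_⟩
    · intro h1
      simp only [Bool.and_eq_true, decide_eq_true_eq] at h1
      exact h1.1
    · rw [isGLB_pair_iff]
      refine ⟨⟨hw.1, ?_⟩, ⟨hw.2.1, ?_⟩, ?_⟩
      · intro _ h2 h3
        simp only at h2
        simp only [Bool.and_eq_true, Bool.or_eq_true, decide_eq_true_eq, Bool.not_eq_true',
          decide_eq_false_iff_not] at h3
        rcases h3.2.1 with h4 | h4
        · exact absurd h2 h4
        · exact h4
      · intro _ h2 h3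
        simp only at h2
        simp only [Bool.and_eq_true, Bool.or_eq_true, decide_eq_true_eq, Bool.not_eq_true',
          decide_eq_false_iff_not] at h3
        rcases h3.2.2 with h4 | h4
        · exact absurd h2 h4
        · exact h4
      · rintro ⟨⟨u, r⟩, hu⟩ h1 h2
        refine ⟨hw.2.2 u h1.1 h2.1, ?_⟩
        intro h3 h4 h5
        simp only at h3 h4 h5
        simp only [Bool.and_eq_true, Bool.or_eq_true, decide_eq_true_eq, Bool.not_eq_true',
          decide_eq_false_iff_not]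
        refine ⟨h4, ?_, ?_⟩
        · by_cases hx : a ≤ x ∧ x ≤ b
          · exact Or.inr (h1.2 h3 hx h5)
          · exact Or.inl hx
        · by_cases hy : a ≤ y ∧ y ≤ b
          · exact Or.inr (h2.2 h3 hy h5)
          · exact Or.inl hy

theorem hasBounds_iso {L M : Type} [PartialOrder L] [PartialOrder M] (e : L ≃o M)
    (h : HasBounds L) : HasBounds M := by
  intro x y
  obtain ⟨⟨s, hs⟩, ⟨i, hi⟩⟩ := h (e.symm x) (e.symm y)
  rw [isLUB_pair_iff] at hs
  rw [isGLB_pair_iff] at hi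
  constructor
  · refine ⟨e s, isLUB_pair_iff.2 ⟨?_, ?_, ?_⟩⟩
    · have := e.monotone hs.1; simpa using this
    · have := e.monotone hs.2.1; simpa using this
    · intro u hx hy
      have := hs.2.2 (e.symm u) (e.symm.monotone hx) (e.symm.monotone hy)
      have := e.monotone this
      simpa using this
  · refine ⟨e i, isGLB_pair_iff.2 ⟨?_, ?_, ?_⟩⟩
    · have := e.monotone hi.1; simpa using this
    · have := e.monotone hi.2.1; simpa using this
    · intro u hx hy
      have := hi.2.2 (e.symm u) (e.symm.monotone hx) (e.symm.monotone hy)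
      have := e.monotone this
      simpa using this

theorem CongruenceUniform.hasBounds {L : PartOrd.{0}} (h : CongruenceUniform L) :
    HasBounds L := by
  induction h with
  | point => intro x y; exact ⟨⟨x, isLUB_pair_iff.2 ⟨le_rfl, le_of_eq (Subsingleton.elim _ _),
      fun _ h _ => h⟩⟩, ⟨x, isGLB_pair_iff.2 ⟨le_rfl, le_of_eq (Subsingleton.elim _ _),
      fun _ h _ => h⟩⟩⟩
  | double L a b _ _ ih => exact hasBounds_double a b ih
  | iso L M e _ ih => exact hasBounds_iso e ih

/-- The lattice structure of a poset with all binary bounds. -/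
@[reducible] noncomputable def latticeOf (L : Type) [PartialOrder L] (h : HasBounds L) :
    Lattice L :=
  { (inferInstance : PartialOrder L) with
    sup := fun x y => Classical.choose (h x y).1
    inf := fun x y => Classical.choose (h x y).2
    le_sup_left := fun x y => (isLUB_pair_iff.1 (Classical.choose_spec (h x y).1)).1
    le_sup_right := fun x y => (isLUB_pair_iff.1 (Classical.choose_spec (h x y).1)).2.1
    sup_le := fun x y z h1 h2 =>
      (isLUB_pair_iff.1 (Classical.choose_spec (h x y).1)).2.2 z h1 h2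
    inf_le_left := fun x y => (isGLB_pair_iff.1 (Classical.choose_spec (h x y).2)).1
    inf_le_right := fun x y => (isGLB_pair_iff.1 (Classical.choose_spec (h x y).2)).2.1
    le_inf := fun x y z h1 h2 =>
      (isGLB_pair_iff.1 (Classical.choose_spec (h y z).2)).2.2 x h1 h2 }

/-! ### Semidistributivity from cover labels -/

theorem joinSD_of_labels {L : Type} [Lattice L] [Finite L]
    (h : ∀ v w : L, v ⋖ w → ∃ g, g ≤ w ∧ ¬ g ≤ v ∧ ∀ t, t ≤ w → ¬ t ≤ v → g ≤ t) :
    ∀ x y z : L, x ⊔ y = x ⊔ z → x ⊔ y = x ⊔ (y ⊓ z) := by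
  intro x y z hyz
  by_contra hne
  have hle : x ⊔ (y ⊓ z) ≤ x ⊔ y := sup_le_sup_left inf_le_left x
  have hlt : x ⊔ (y ⊓ z) < x ⊔ y := lt_of_le_of_ne hle (Ne.symm hne)
  obtain ⟨v, hv1, hv2⟩ := exists_le_covBy_of_lt hlt
  obtain ⟨g, _, hg2, hg3⟩ := h v (x ⊔ y) hv2
  have hxv : x ≤ v := le_sup_left.trans hv1
  have hy : ¬ y ≤ v := fun hy => absurd (sup_le hxv hy) (not_le_of_gt hv2.lt)
  have hz : ¬ z ≤ v := fun hz => absurd (hyz ▸ sup_le hxv hz : x ⊔ y ≤ v) (not_le_of_gt hv2.lt)
  have g1 : g ≤ y := hg3 y le_sup_right hy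
  have g2 : g ≤ z := hg3 z (hyz ▸ le_sup_right) hz
  exact hg2 (((le_inf g1 g2).trans le_sup_right).trans hv1)

theorem meetSD_of_labels {L : Type} [Lattice L] [Finite L]
    (h : ∀ v w : L, v ⋖ w → ∃ g, v ≤ g ∧ ¬ w ≤ g ∧ ∀ t, v ≤ t → ¬ w ≤ t → t ≤ g) :
    ∀ x y z : L, x ⊓ y = x ⊓ z → x ⊓ y = x ⊓ (y ⊔ z) := by
  intro x y z hyz
  by_contra hne
  have hle : x ⊓ y ≤ x ⊓ (y ⊔ z) := inf_le_inf_left x le_sup_left
  have hlt : x ⊓ y < x ⊓ (y ⊔ z) := lt_of_le_of_ne hle hne
  obtain ⟨v, hv1, hv2⟩ := exists_covBy_le_of_lt hlt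
  obtain ⟨g, _, hg2, hg3⟩ := h (x ⊓ y) v hv1
  have hxv : v ≤ x := hv2.trans inf_le_left
  have hy : ¬ v ≤ y := fun hy => absurd (le_inf hxv hy) (not_le_of_gt hv1.lt)
  have hz : ¬ v ≤ z := fun hz => absurd (hyz ▸ le_inf hxv hz : v ≤ x ⊓ y) (not_le_of_gt hv1.lt)
  have g1 : y ≤ g := hg3 y inf_le_right hy
  have g2 : z ≤ g := hg3 z (hyz ▸ inf_le_right) hz
  exact hg2 ((hv2.trans inf_le_right).trans (sup_le g1 g2))

/-! ### Families of bit masks -/

/-- inclusion of bit masks -/
def msub (a b : ℕ) : Bool := Nat.beq (Nat.land a b) a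

theorem msub_iff_land {a b : ℕ} : msub a b = true ↔ Nat.land a b = a := by
  unfold msub; exact ⟨Nat.eq_of_beq_eq_true, fun h => by rw [h]; exact Nat.beq_refl a⟩

theorem msub_iff {a b : ℕ} :
    msub a b = true ↔ ∀ i, a.testBit i = true → b.testBit i = true := by
  rw [msub_iff_land]
  constructor
  · intro h i hi
    have h2 : (a &&& b).testBit i = a.testBit i := congrArg (fun n => Nat.testBit n i) h
    rw [Nat.testBit_and, hi] at h2
    simpa using h2
  · intro h
    change a &&& b = a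
    apply Nat.eq_of_testBit_eq
    intro i
    rw [Nat.testBit_and]
    cases h1 : a.testBit i
    · simp
    · simp [h i h1]

/-- The family of masks in the list `M`, ordered by inclusion. -/
@[ext] structure Fam (M : List ℕ) : Type where
  /-- the mask -/
  val : ℕ
  /-- membership -/
  mem : val ∈ M

instance (M : List ℕ) : PartialOrder (Fam M) where
  le x y := msub x.1 y.1 = true
  le_refl x := msub_iff.2 fun _ h => h
  le_trans x y z h1 h2 := msub_iff.2 fun i h => msub_iff.1 h2 i (msub_iff.1 h1 i h)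
  le_antisymm x y h1 h2 := by
    apply Fam.ext
    apply Nat.eq_of_testBit_eq
    intro i
    have h3 := msub_iff.1 h1 i
    have h4 := msub_iff.1 h2 i
    cases h5 : x.1.testBit i <;> cases h6 : y.1.testBit i <;> simp_all

theorem Fam.le_def {M : List ℕ} {x y : Fam M} : x ≤ y ↔ msub x.1 y.1 = true := Iff.rfl

/-- one doubling step on masks; `p = 2 ^ k` is the new bit. -/
def step (p a b : ℕ) (M : List ℕ) : List ℕ :=
  M.flatMap fun m => if msub a m = true then
    (if msub m b = true then [m, Nat.lor m p] else [Nat.lor m p]) else [m]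

theorem mem_step {p a b : ℕ} {M : List ℕ} {x : ℕ} :
    x ∈ step p a b M ↔ ∃ m ∈ M, (x = m ∧ (msub a m = true → msub m b = true)) ∨
      (x = Nat.lor m p ∧ msub a m = true) := by
  unfold step
  rw [List.mem_flatMap]
  constructor
  · rintro ⟨m, hm, hx⟩
    refine ⟨m, hm, ?_⟩
    split_ifs at hx with h1 h2
    · simp only [List.mem_cons, List.not_mem_nil, or_false] at hx
      rcases hx with rfl | rfl
      · exact Or.inl ⟨rfl, fun _ => h2⟩
      · exact Or.inr ⟨rfl, h1⟩
    · simp only [List.mem_cons, List.not_mem_nil, or_false] at hx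
      exact Or.inr ⟨hx, h1⟩
    · simp only [List.mem_cons, List.not_mem_nil, or_false] at hx
      exact Or.inl ⟨hx, fun h => absurd h h1⟩
  · rintro ⟨m, hm, hx⟩
    refine ⟨m, hm, ?_⟩
    rcases hx with ⟨rfl, h⟩ | ⟨rfl, h⟩
    · split_ifs with h1 h2
      · simp
      · exact absurd (h h1) h2
      · simp
    · split_ifs with h1
      · simp
      · simp

/-- key facts on testBit of `m ||| 2^k` -/
theorem testBit_lor_pow (m k i : ℕ) :
    (Nat.lor m (2 ^ k)).testBit i = (m.testBit i || decide (k = i)) := by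
  change (m ||| 2 ^ k).testBit i = _
  rw [Nat.testBit_or, Nat.testBit_two_pow]

theorem testBit_false_of_lt {m k : ℕ} (h : m < 2 ^ k) : m.testBit k = false :=
  Nat.testBit_lt_two_pow h

theorem msub_lor_lor {m n k : ℕ} (hm : m < 2 ^ k) :
    msub (Nat.lor m (2 ^ k)) (Nat.lor n (2 ^ k)) = true ↔ msub m n = true := by
  rw [msub_iff, msub_iff]
  constructor
  · intro h i hi
    have h1 := h i
    rw [testBit_lor_pow, testBit_lor_pow] at h1
    by_cases hk : k = i
    · subst hk
      rw [testBit_false_of_lt hm] at hi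
      exact absurd hi (by simp)
    · simp only [hi, hk, decide_false, Bool.or_false, forall_const] at h1
      exact h1
  · intro h i
    rw [testBit_lor_pow, testBit_lor_pow]
    intro h1
    simp only [Bool.or_eq_true, decide_eq_true_eq] at h1 ⊢
    rcases h1 with h1 | h1
    · exact Or.inl (h i h1)
    · exact Or.inr h1

theorem msub_lor_right {m n k : ℕ} (hm : m < 2 ^ k) :
    msub m (Nat.lor n (2 ^ k)) = true ↔ msub m n = true := by
  rw [msub_iff, msub_iff]
  constructor
  · intro h i hi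
    have h1 := h i hi
    rw [testBit_lor_pow] at h1
    by_cases hk : k = i
    · subst hk
      rw [testBit_false_of_lt hm] at hi
      exact absurd hi (by simp)
    · simpa [hk] using h1
  · intro h i hi
    rw [testBit_lor_pow]
    simp [h i hi]

theorem not_msub_lor_left {m n k : ℕ} (hn : n < 2 ^ k) :
    ¬ msub (Nat.lor m (2 ^ k)) n = true := by
  rw [msub_iff]
  intro h
  have h1 := h k
  rw [testBit_lor_pow, testBit_false_of_lt hn] at h1
  simp at h1

/-- the model of a doubling by masks -/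
theorem doubling_iso {M : List ℕ} {k : ℕ} (hM : ∀ m ∈ M, m < 2 ^ k) (a b : Fam M) :
    Nonempty (Doubling (Fam M) a b ≃o Fam (step (2 ^ k) a.1 b.1 M)) := by
  classical
  -- value of the image
  let up : Doubling (Fam M) a b → Prop := fun p => a ≤ p.1.1 ∧ (p.1.1 ≤ b → p.1.2 = true)
  let f : Doubling (Fam M) a b → Fam (step (2 ^ k) a.1 b.1 M) := fun p =>
    if h : up p then ⟨Nat.lor p.1.1.1 (2 ^ k), mem_step.2 ⟨p.1.1.1, p.1.1.2, Or.inr ⟨rfl, h.1⟩⟩⟩
    else ⟨p.1.1.1, mem_step.2 ⟨p.1.1.1, p.1.1.2, Or.inl ⟨rfl, fun h1 => by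
      by_contra h2
      exact h ⟨h1, fun h3 => absurd h3 h2⟩⟩⟩⟩
  have fval : ∀ p, (f p).1 = if up p then Nat.lor p.1.1.1 (2 ^ k) else p.1.1.1 := by
    intro p
    by_cases h : up p
    · simp only [f, h, dif_pos, if_true]
    · simp only [f, h, dif_neg, not_false_iff, if_false]
  have hlt : ∀ p : Doubling (Fam M) a b, p.1.1.1 < 2 ^ k := fun p => hM _ p.1.1.2
  have hle : ∀ p q, f p ≤ f q ↔ p ≤ q := by
    intro p q
    have hpq : p ≤ q ↔ p.1.1 ≤ q.1.1 ∧ ((a ≤ p.1.1 ∧ p.1.1 ≤ b) → (a ≤ q.1.1 ∧ q.1.1 ≤ b) →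
      p.1.2 = true → q.1.2 = true) := Iff.rfl
    rw [Fam.le_def, fval, fval, hpq]
    by_cases hp : up p <;> by_cases hq : up q
    · rw [if_pos hp, if_pos hq, msub_lor_lor (hlt p)]
      exact ⟨fun h => ⟨h, fun _ h2 _ => hq.2 h2.2⟩, fun h => h.1⟩
    · rw [if_pos hp, if_neg hq]
      refine ⟨fun h => absurd h (not_msub_lor_left (hlt q)), fun h => ?_⟩
      exfalso
      apply hq
      refine ⟨hp.1.trans h.1, fun h2 => ?_⟩
      exact h.2 ⟨hp.1, h.1.trans h2⟩ ⟨hp.1.trans h.1, h2⟩ (hp.2 (h.1.trans h2))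
    · rw [if_neg hp, if_pos hq, msub_lor_right (hlt p)]
      exact ⟨fun h => ⟨h, fun _ h2 _ => hq.2 h2.2⟩, fun h => h.1⟩
    · rw [if_neg hp, if_neg hq]
      refine ⟨fun h => ⟨h, fun h1 h2 h3 => ?_⟩, fun h => h.1⟩
      exact absurd ⟨h1.1, fun _ => h3⟩ hp
  have hsurj : Function.Surjective f := by
    rintro ⟨x, hx⟩
    rw [mem_step] at hx
    obtain ⟨m, hm, hx⟩ := hx
    by_cases hI : a ≤ (⟨m, hm⟩ : Fam M) ∧ (⟨m, hm⟩ : Fam M) ≤ b
    · rcases hx with ⟨rfl, h⟩ | ⟨rfl, h⟩
      · refine ⟨⟨(⟨x, hm⟩, false), by simp⟩, ?_⟩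
        apply Fam.ext
        rw [fval, if_neg]
        rintro ⟨_, h2⟩
        exact absurd (h2 hI.2) (by simp)
      · refine ⟨⟨(⟨m, hm⟩, true), fun _ => hI⟩, ?_⟩
        apply Fam.ext
        rw [fval, if_pos]
        exact ⟨h, fun _ => rfl⟩
    · rcases hx with ⟨rfl, h⟩ | ⟨rfl, h⟩
      · refine ⟨⟨(⟨x, hm⟩, false), by simp⟩, ?_⟩
        apply Fam.ext
        rw [fval, if_neg]
        rintro ⟨h1, _⟩
        exact hI ⟨h1, h h1⟩
      · refine ⟨⟨(⟨m, hm⟩, false), by simp⟩, ?_⟩
        apply Fam.ext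
        rw [fval, if_pos]
        exact ⟨h, fun h2 => absurd ⟨h, h2⟩ hI⟩
  have hinj : Function.Injective f := by
    intro p q h
    exact le_antisymm ((hle p q).1 (le_of_eq h)) ((hle q p).1 (le_of_eq h.symm))
  exact ⟨⟨Equiv.ofBijective f ⟨hinj, hsurj⟩, by
    intro p q
    exact hle p q⟩⟩

/-- run a list of doublings, starting at bit `p`. -/
def run : List (ℕ × ℕ) → ℕ → List ℕ → List ℕ
  | [], _, M => M
  | (a, b) :: ch, p, M => run ch (2 * p) (step p a b M)

/-- check that all doublings are doublings of intervals `[a,b]` with `a ≤ b` in the family. -/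
def chk : List (ℕ × ℕ) → ℕ → List ℕ → Bool
  | [], _, _ => true
  | (a, b) :: ch, p, M => M.contains a && (M.contains b && (msub a b && chk ch (2 * p) (step p a b M)))

theorem cu_run (ch : List (ℕ × ℕ)) : ∀ (k : ℕ) (M : List ℕ), (∀ m ∈ M, m < 2 ^ k) →
    CongruenceUniform (PartOrd.of (Fam M)) → chk ch (2 ^ k) M = true →
    CongruenceUniform (PartOrd.of (Fam (run ch (2 ^ k) M))) := by
  induction ch with
  | nil => intro k M _ h _; exact h
  | cons c ch ih =>
    obtain ⟨a, b⟩ := c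
    intro k M hM hcu hchk
    simp only [chk, Bool.and_eq_true] at hchk
    obtain ⟨h1, h2, h3, h4⟩ := hchk
    have ha : a ∈ M := by simpa using h1
    have hb : b ∈ M := by simpa using h2
    obtain ⟨e⟩ := doubling_iso hM ⟨a, ha⟩ ⟨b, hb⟩
    have hcu2 : CongruenceUniform (PartOrd.of (Fam (step (2 ^ k) a b M))) :=
      CongruenceUniform.iso (PartOrd.of (Doubling (Fam M) ⟨a, ha⟩ ⟨b, hb⟩)) _ e
        (CongruenceUniform.double (PartOrd.of (Fam M)) ⟨a, ha⟩ ⟨b, hb⟩ h3 hcu)
    have hM2 : ∀ m ∈ step (2 ^ k) a b M, m < 2 ^ (k + 1) := by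
      intro x hx
      rw [mem_step] at hx
      obtain ⟨m, hm, hx⟩ := hx
      have h5 := hM m hm
      have h6 : (2 : ℕ) ^ k < 2 ^ (k + 1) := by rw [pow_succ]; have := Nat.two_pow_pos k; omega
      rcases hx with ⟨rfl, _⟩ | ⟨rfl, _⟩
      · omega
      · exact Nat.or_lt_two_pow (h5.trans h6) h6
    have h7 : 2 * 2 ^ k = 2 ^ (k + 1) := by rw [pow_succ]; ring
    rw [h7] at h4
    have h8 := ih (k + 1) (step (2 ^ k) a b M) hM2 hcu2 h4
    have h9 : run ((a, b) :: ch) (2 ^ k) M = run ch (2 ^ (k + 1)) (step (2 ^ k) a b M) := by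
      rw [run, h7]
    rw [h9]
    exact h8

theorem cu_zero : CongruenceUniform (PartOrd.of (Fam [0])) := by
  refine CongruenceUniform.iso (PartOrd.of Unit) _ ?_ CongruenceUniform.point
  have : Unique (Fam [0]) := ⟨⟨⟨0, by simp⟩⟩, by
    rintro ⟨m, hm⟩
    apply Fam.ext
    simpa using hm⟩
  exact ⟨⟨fun _ => ⟨0, by simp⟩, fun _ => (), fun _ => rfl, fun x => Subsingleton.elim _ _⟩, by
    intro x y
    exact ⟨fun _ => le_of_eq (Subsingleton.elim x y), fun _ => le_rfl⟩⟩

theorem cu_chain (ch : List (ℕ × ℕ)) (h : chk ch 1 [0] = true) :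
    CongruenceUniform (PartOrd.of (Fam (run ch 1 [0]))) := by
  have := cu_run ch 0 [0] (by simp) cu_zero (by simpa using h)
  simpa using this

end MP512408
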